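import Pool.Agent.Run7.h696.CF.FinB
import Pool.Agent.Run7.h225.HP.Iface

/-!
# Interface of the project CP (helper696)

Hyperlogarithms with arbitrary integral letters and hypergeometric families at the correlated fibres `1 / p_1(t), …, 1 / p_r(t)`
(project CF): for almost all `t` there are no relations except those of the groups. The new functional part: the
hyperlogarithms are linearly independent over the field generated by the solutions of all pulled back equations.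
-/

set_option autoImplicit false

open PowerSeries Matrix
open Pool.Agent.Y113 hiding Bm
open Pool.Agent.Y120.GF Pool.Agent.Y120.GH Pool.Agent.Y119.HZ
open Pool.Agent.Y119.HY (cm E Hf Yf Vr)
open Pool.Agent.Run7.h225.HG Pool.Agent.Run7.h696.CF

namespace Pool.Agent.Run7.h696.CP

/-- The coefficients of the hyperlogarithm of a word, that is of the iterated integral from `0` of the forms `dz / z` (for
the letter `none`) and `dz / (1 - a_i z)` (for the letter `some i`); the first letter is the outermost integration. -/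
def co {m : ℕ} (a : Fin m → ℤ) : List (Option (Fin m)) → ℕ → ℚ
  | [], k => if k = 0 then 1 else 0
  | none :: w, k => co a w k / k
  | some i :: w, k => (∑ l ∈ Finset.range k, (a i : ℚ) ^ (k - 1 - l) * co a w l) / k

/-- the hyperlogarithm of a word -/
def hy {m : ℕ} (a : Fin m → ℤ) (w : List (Option (Fin m))) : ℚ⟦X⟧ := PowerSeries.mk (co a w)

/-- the words of length at most `W` which do not end with `none` -/
abbrev Wd (m W : ℕ) : Type := {w : List (Option (Fin m)) // w.length ≤ W ∧ w.getLast? ≠ some none}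

theorem Wd_finite (m W : ℕ) : Finite (Wd m W) :=
  ((List.finite_length_le (Option (Fin m)) W).subset fun _ h => h.1).to_subtype

noncomputable instance (m W : ℕ) : Fintype (Wd m W) := @Fintype.ofFinite _ (Wd_finite m W)

/-- no nontrivial combination of the logarithms `hy a [some i] = -log(1 - a_i z) / a_i` is in the field generated by the
functions `h` -/
def NoLogs {m : ℕ} (a : Fin m → ℤ) {N : ℕ} (h : Fin N → ℚ⟦X⟧) : Prop :=
  ∀ c : Fin m → ℚ, c ≠ 0 → ∀ P R : MvPolynomial (Fin N) (Polynomial ℚ),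
    MvPolynomial.aeval h P * ∑ i, C (c i) * hy a [some i] = MvPolynomial.aeval h R → MvPolynomial.aeval h P = 0

/-- **HLS.** All hyperlogarithms of words of length at most `W` are entries of the holomorphic part of the fundamental matrix
of a system.

Proof. Generalises `Run7/h160/HP/PLS.lean` (letters `0`, `1`) to the letters `0`, `a_i`. All words `w : List (Option (Fin m))` of
length `≤ W` (`d` is their number). Define `h_w` by recursion on the length: `h_[] = 1` and for `w ≠ []` `h_w = In(R_w)`,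
`R_w = [w = none u] h_u + [w = some i u] (X * geo a_i) h_u - [w = u none] h_u` (`geo a = 1 / (1 - a z)`, `Y119/ML/Ser.lean`).
`N(u, v) = 1` if `u = none v`, `B_i(u, v) = 1` if `u = some i v`, `H(u, v) = h_w` if `u = w ++ v`, else `0`. Then
`θ H = N H - H N + ∑_i (z / (1 - a_i z)) B_i H`, so `T = ∏ (1 - a_i z)`. Inverse matrix, `SDc` as there. `cv`: the coefficients of
`h_w` are at most `C (k + 1)^p L^k`. -/
def S_HLS : Prop := ∀ (m : ℕ) (a : Fin m → ℤ) (L : ℝ), 1 ≤ L → (∀ i, |(a i : ℝ)| ≤ L) → ∀ W : ℕ,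
  ∃ (d : ℕ) (N : Matrix (Fin d) (Fin d) ℚ) (H V : Matrix (Fin d) (Fin d) ℚ⟦X⟧),
    SysL L d N H V ∧ ∀ w : Wd m W, ∃ p q, H p q = hy a w.1

/-- **INDH.** The hyperlogarithms are linearly independent over the field generated by the functions `h`, if no nontrivial
combination of the `log(1 - a_i z)` is in this field.

Proof. Generalises `Run7/h704/HP/IND.lean`: `graded_indep` in `Y119/ML/LI.lean` with `κ = Option (Fin m)`, `u none = 1`,
`u (some i) = io (X * geo a_i)`, `f w = io (hy a w)`, `deg = length`; `θ hy (none :: w) = hy w` (`w ≠ []`),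
`θ hy (some i :: w) = z / (1 - a_i z) hy w`. `hprim`: let `D g = c₀ + ∑ c_i z / (1 - a_i z)`; the coefficient of `z^0` gives
`c₀ = 0`, so `g - ∑ c_i io (hy a [some i])` is a constant and `c = 0` by `NoLogs`. -/
def S_INDH : Prop := ∀ (m : ℕ) (a : Fin m → ℤ) (N : ℕ) (h : Fin N → ℚ⟦X⟧) (T : Polynomial ℚ)
  (A : Fin N → Fin N → Polynomial ℚ), T ≠ 0 →
  (∀ i, (T : ℚ⟦X⟧) * d⁄dX ℚ (h i) = ∑ j, (A i j : ℚ⟦X⟧) * h j) → NoLogs a h →
  ∀ (σ : Type) [Fintype σ] (F : σ → MvPolynomial (Fin N) (Polynomial ℚ)),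
  LinearIndependent (Polynomial ℚ) (fun b => MvPolynomial.aeval h (F b)) → ∀ W : ℕ,
  LinearIndependent (Polynomial ℚ) (fun p : σ × Wd m W => MvPolynomial.aeval h (F p.1) * hy a p.2.1)

/-- **ONEH.** The arithmetic input for the products (generalises `Run7/h160/HP/ONE.lean`; `SysL` in place of `Sys`, `L < t` in
place of `1 < t`, `fam_gen` as in `Run7/h468/CF/TUPL.lean` in place of `p_SYS1`, `p_BLKL` in place of `p_BLK`). -/
def S_ONEH : Prop := S_HLS → S_INDH → ∀ (m : ℕ) (a : Fin m → ℤ) (L : ℝ), 1 ≤ L → (∀ i, |(a i : ℝ)| ≤ L) →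
  ∀ (n : ℕ) (N : Matrix (Fin n) (Fin n) ℚ) (H V : Matrix (Fin n) (Fin n) ℚ⟦X⟧),
  SysL L n N H V → NoLogs a (hfg H) → ∀ δ W : ℕ,
  ∃ (B : Finset (Fin δ → Option (Fin (n * n)))) (b : Polynomial ℤ)
      (M : (Fin δ → Option (Fin (n * n))) → B → Polynomial ℤ), b ≠ 0 ∧
      (∀ β, ps b * yw (hfg H) β = ∑ γ, ps (M β γ) * yw (hfg H) γ.1) ∧
      One (XF δ fun p : B × Wd m W => yw (hfg H) p.1.1 * hy a p.2.1)

/-- **FINH.** The theorem on tuples for systems and hyperlogarithms. (`Run7/h225/HP/FIN.lean`: `sys2_poly` and `jfin_poly`, with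
`SysL` as in `Run7/h468/CF/TUPL.lean`; `LT` is `Run7/h824/HP/LT.lean`.) -/
def S_FINH : Prop := S_HLS → S_INDH → S_ONEH → ∀ (k δ D L W : ℕ) (m : Fin k → ℕ) (a : ∀ i, Fin (m i) → ℤ)
  (r : Fin k → ℕ) (n : ∀ i, Fin (r i) → ℕ)
  (N : ∀ i j, Matrix (Fin (n i j)) (Fin (n i j)) ℚ) (H V' : ∀ i j, Matrix (Fin (n i j)) (Fin (n i j)) ℚ⟦X⟧)
  (T : ∀ i, ℂ → Set (∀ j, Matrix (Fin (n i j)) (Fin (n i j)) ℂ)), 1 ≤ L → (∀ i j, |(a i j : ℝ)| ≤ L) →
  (∀ i j, N i j ^ n i j = 0) →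
  (∀ i, SysL L (∑ j, n i j) (blk (n i) ℚ (N i)) (blk (n i) ℚ⟦X⟧ (H i)) (blk (n i) ℚ⟦X⟧ (V' i))) →
  (∀ i, NoLogs (a i) (hfg (blk (n i) ℚ⟦X⟧ (H i)))) →
  (∀ i, ∀ x : ℝ, 0 < x → x < 1 / L → ∀ X ∈ T i x, ∀ c : ℂ, ∃ g : ∀ j, Matrix (Fin (n i j)) (Fin (n i j)) ℂ,
    blk (n i) ℂ g ∈ GalL L (Yf (cm (blk (n i) ℚ (N i))) (Hcg (blk (n i) ℚ⟦X⟧ (H i)))) ∧
    ∀ j, Yf (cm (N i j)) (Hcg (H i j)) x * g j = X j * E (cm (N i j)) c) →
    ∃ c C : ℝ, 0 < c ∧ 0 ≤ C ∧ ∀ (V : Submodule ℚ ℂ) [Module.Finite ℚ V], Module.finrank ℚ V ≤ D →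
      ∀ Ω : (∀ i j, Matrix (Fin (n i j)) (Fin (n i j)) ℂ), ∀ (x : Fin k → ℕ) (N' : ℕ), (∀ i, L ≤ x i) → 1 ≤ N' →
      ∀ S : Finset (Fin k → ℕ), (∀ t ∈ S, (∀ i, x i < t i ∧ t i ≤ x i + N') ∧
        ∃ P : (∀ i, Wd (m i) W) → MvPolynomial (Σ i : Fin k, Option (Σ j : Fin (r i), Fin (n i j) × Fin (n i j))) ℂ,
        (∀ u, (P u).totalDegree ≤ δ) ∧ (∀ u s, (P u).coeff s ∈ V) ∧
        ∑ u, MvPolynomial.aeval (pj (fun i => ((Real.log (t i) : ℝ) : ℂ)) fun i j => Ytg (N i j) (H i j) (t i) * Ω i j) (P u) *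
          ∏ i, ((ev (t i : ℝ) (hy (a i) (u i).1) : ℝ) : ℂ) = 0 ∧
        ∃ (u : ∀ i, Wd (m i) W) (l : Fin k → ℂ) (g : ∀ i j, Matrix (Fin (n i j)) (Fin (n i j)) ℂ),
          (∀ i, g i ∈ T i (((1 / (t i : ℝ) : ℝ)) : ℂ)) ∧
          MvPolynomial.aeval (pj l fun i j => g i j * Ω i j) (P u) ≠ 0) →
      (S.card : ℝ) ≤ C * (N' : ℝ) ^ (k - 1) * ∑ i, (1 + N' / ((x i : ℝ) + N') ^ c)

/-- the value at `x` of the polynomial `P` in `z` and the entries of `Y g z^(-N)`, `Y = H z^N` -/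
noncomputable def vP {n : ℕ} (N : Matrix (Fin n) (Fin n) ℚ) (H : Matrix (Fin n) (Fin n) ℚ⟦X⟧)
    (P : MvPolynomial (Fin (n * n)) (Polynomial ℚ)) (g : Matrix (Fin n) (Fin n) ℂ) (x : ℝ) : ℂ :=
  MvPolynomial.eval₂ (evq (x : ℂ)) (fun j => (Yf (cm N) (Hcg H) (x : ℂ) * g * E (cm N) (-Complex.log (x : ℂ)))
    (ix n j).1 (ix n j).2) P

/-- **DER.** Derivatives of polynomials in the solutions.

Proof. `T = X T₀` with `T₀`, `A` of `SysL.ode` (with rational coefficients). Induction on `P` (`MvPolynomial.induction_on`): for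
`P = C q` take `P' = C (T q')`, for a variable `X_(i,j)` take `P' = ∑_k C A_ik X_(k,j) - ∑_k C (T₀ N_kj) X_(i,k)` (`ode`), sums and
products by the rules. Analytic part: the power series `Hf (Hcg H)` converges for `|z| < 1 / L` (`SysL.cv`), its derivative is
the value of the formal derivative, so `z T₀(z) Hf' = A Hf - T₀ Hf N`, and `Z = Hf z^N g z^(-N)` satisfies `z T₀ Z' = A Z - T₀ Z N`
(`HD.mul`, `E_HD` in `Y119/HY/Loc.lean`; `Yf N H z = Hf H z * E N (log z)`). -/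
def S_DER : Prop := ∀ (L : ℝ) (n : ℕ) (N : Matrix (Fin n) (Fin n) ℚ) (H W : Matrix (Fin n) (Fin n) ℚ⟦X⟧), 0 < L →
  SysL L n N H W → ∃ T : Polynomial ℚ, T ≠ 0 ∧ ∀ P : MvPolynomial (Fin (n * n)) (Polynomial ℚ),
  ∃ P' : MvPolynomial (Fin (n * n)) (Polynomial ℚ),
    (T : ℚ⟦X⟧) * d⁄dX ℚ (MvPolynomial.aeval (hfg H) P) = MvPolynomial.aeval (hfg H) P' ∧
    ∀ g : Matrix (Fin n) (Fin n) ℂ, AnalyticOnNhd ℝ (vP N H P g) (Set.Ioo 0 (1 / L)) ∧
      ∀ x : ℝ, 0 < x → x < 1 / L → evq (x : ℂ) T * deriv (vP N H P g) x = vP N H P' g x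

/-- **WRO.** Analytic functions with Wronskian zero.

Proof. If `p x₀ ≠ 0`, then near a point `x₁ ∉ F` close to `x₀` the derivative of `q / p` is `0`, so `q = φ p` near `x₁`, and on the
whole interval by the identity theorem. -/
def S_WRO : Prop := ∀ (b : ℝ) (p q : ℝ → ℂ) (F : Set ℝ), F.Finite → AnalyticOnNhd ℝ p (Set.Ioo 0 b) →
  AnalyticOnNhd ℝ q (Set.Ioo 0 b) → (∀ x ∈ Set.Ioo 0 b, x ∉ F → p x * deriv q x = q x * deriv p x) →
  (∀ x ∈ Set.Ioo 0 b, p x = 0) ∨ ∃ φ : ℂ, ∀ x ∈ Set.Ioo 0 b, q x = φ * p x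

/-- **CHA.** The action of the group on a function `Λ` with rational derivative in the field of the solutions.

Proof. Let `T`, `P'`, `R'` be as in DER and `X = C d * (P * R' - R * P') - C (T * e) * P ^ 2`. As `R = P Λ` (values of `aeval`) and
`d Λ' = e`, `aeval (hfg H) X = 0`; so `vP X g = 0` on `(0, 1 / L)` for `g` in `GalL` (`rel_inv_G` in `Run7/h468/CF/TUPL.lean`). With
`p = vP P g`, `q = vP R g - Λ p` (`Λ` is analytic on `(0, 1 / L)` with `d Λ' = e`) this says `T d (p q' - q p') = 0`; WRO with `F` the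
set of the roots of `T d`. -/
def S_CHA : Prop := S_DER → S_WRO → ∀ (L : ℝ) (n : ℕ) (N : Matrix (Fin n) (Fin n) ℚ)
  (H W : Matrix (Fin n) (Fin n) ℚ⟦X⟧), 0 < L → SysL L n N H W →
  ∀ (Λ : ℚ⟦X⟧) (d e : Polynomial ℚ), d ≠ 0 → (d : ℚ⟦X⟧) * d⁄dX ℚ Λ = (e : ℚ⟦X⟧) → (∀ t : ℝ, L < t → Cv t Λ) →
  ∀ P R : MvPolynomial (Fin (n * n)) (Polynomial ℚ),
  MvPolynomial.aeval (hfg H) P * Λ = MvPolynomial.aeval (hfg H) R →
  ∀ g ∈ GalL L (Yf (cm N) (Hcg H)), (∀ x : ℝ, 0 < x → x < 1 / L → vP N H P g x = 0) ∨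
    ∃ φ : ℂ, ∀ x : ℝ, 0 < x → x < 1 / L → vP N H R g x = (((ev (1 / x) Λ : ℝ) : ℂ) + φ) * vP N H P g x

/-- **TOR.** A transvection is conjugate to its fourth power in `SL` and in `Sp`.

Proof. (1) If `w = 0` or `μ = 0` take `γ = 1`. Otherwise there are `u`, `ν` with `μ·u = 1`, `ν·w = 1`, `ν·u = 0`, and
`γ = 1 + w ⊗ ν - (1 / 2) u ⊗ μ` satisfies `γ w = 2 w`, `γ u = u / 2`, `μ γ = μ / 2`, `γ = 1` modulo the span of `w`, `u`; `det γ = 1` by
`Matrix.det_one_add_mul_comm` (a `2 × 2` determinant). (2) `μ = J w`, `μ·x = -ω(w, x)` with `ω(x, y) = xᵀ J y`; take `u` with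
`μ·u = 1` and `ν·x = ω(x, u) / ω(w, u)`. -/
def S_TOR : Prop :=
  (∀ (n : ℕ) (w μ : Fin n → ℂ), μ ⬝ᵥ w = 0 → ∃ γ : Matrix (Fin n) (Fin n) ℂ, γ.det = 1 ∧
    ∀ s : ℂ, γ * (1 + s • vecMulVec w μ) = (1 + (4 * s) • vecMulVec w μ) * γ) ∧
  ∀ (n : ℕ) (J : Matrix (Fin n) (Fin n) ℂ) (w : Fin n → ℂ), J.transpose = -J → IsUnit J.det →
    ∃ γ : Matrix (Fin n) (Fin n) ℂ, γ.det = 1 ∧ γ.transpose * J * γ = J ∧
    ∀ s : ℂ, γ * (1 + s • vecMulVec w (J *ᵥ w)) = (1 + (4 * s) • vecMulVec w (J *ᵥ w)) * γ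

/-- **RAT.** The logarithms are not rational functions.

Proof. `Λ = ∑ c_i hy a [some i]` has `Λ' = ∑ c_i / (1 - a_i z)`. Let `p ≠ 0`, `p Λ = r` on the interval; dividing by common zeros we
may assume that `p`, `r` are coprime. With `D = ∏ (1 - a_i z)`: `D (r' p - r p') = p² ∑_i c_i ∏_(j ≠ i) (1 - a_j z)` as polynomials.
Let `c_i ≠ 0`, `ρ = 1 / a_i`, `v` the order of `p` at `ρ`. If `v = 0` the right side does not vanish at `ρ`, the left side does. If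
`v ≥ 1` then `r(ρ) ≠ 0` and the orders are `1 + (v - 1)` and `2 v`, a contradiction. (Another way: the values of
`hy a [some i]` are `-log(1 - a_i z) / a_i` by `Complex.hasSum_taylorSeries_neg_log`, and analytic continuation; or the linear
independence of the hyperlogarithms over `ℚ[z]` in the starting tree, `Y119/ML`.) -/
def S_RAT : Prop := ∀ (m : ℕ) (a : Fin m → ℤ) (L : ℝ), Function.Injective a → (∀ i, a i ≠ 0) → 1 ≤ L →
  (∀ i, |(a i : ℝ)| ≤ L) → ∀ c : Fin m → ℚ, c ≠ 0 → ∀ p r : Polynomial ℂ,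
  (∀ x : ℝ, 0 < x → x < 1 / L → p.eval (x : ℂ) * ((ev (1 / x) (∑ i, C (c i) * hy a [some i]) : ℝ) : ℂ) = r.eval (x : ℂ)) →
  p = 0

end Pool.Agent.Run7.h696.CP
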