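import Pool.Agent.Run7.h696.CP.FinD
import Pool.Agent.Run7.h56.CP.TOR
import Pool.Agent.Run7.h56.CP.DER
import Pool.Agent.Run7.h56.CP.FINH
import Pool.Agent.Run7.h160.CP.HLS
import Pool.Agent.Run7.h160.CP.ONEH
import Pool.Agent.Run7.h379.CP.INDH
import Pool.Agent.Run7.h593.CP.CHA
import Pool.Agent.Run7.h593.CP.RAT
import Pool.Agent.Run7.h593.CP.WRO

/-!
# All pieces of the project CP
-/
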