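import Pool.Agent.Run7.h696.CP.NLB

/-!
# No logarithm in the field of the hypergeometric families at correlated fibres
-/

set_option autoImplicit false

open Matrix PowerSeries
open Pool.Agent.Y113 hiding Bm
open Pool.Agent.Y120.GF Pool.Agent.Y120.GH Pool.Agent.Y119.HZ
open Pool.Agent.Y119.HY (Am Bm cm E Hf Hc Yf Ac_nil)
open Run7.h893.HO
open Pool.Agent.Run7.h225.HG Pool.Agent.Run7.h696.CF

namespace Pool.Agent.Run7.h696.CP

section logs

variable {m : ℕ} (a : Fin m → ℤ)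

lemma co_one (i : Fin m) (k : ℕ) : co a [some i] k = (a i : ℚ) ^ (k - 1) / k := by
  rcases Nat.eq_zero_or_pos k with h | h
  · subst h
    simp [co]
  · have h1 : co a [some i] k = (∑ l ∈ Finset.range k, (a i : ℚ) ^ (k - 1 - l) * co a [] l) / k := rfl
    rw [h1, Finset.sum_eq_single 0]
    · simp [co]
    · intro l _ hl
      simp [co, hl]
    · intro h2
      exact absurd (Finset.mem_range.2 h) h2

lemma hy_der (i : Fin m) :
    (((1 - Polynomial.C (a i : ℚ) * Polynomial.X : Polynomial ℚ)) : ℚ⟦X⟧) * d⁄dX ℚ (hy a [some i]) = 1 := by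
  have h1 : ∀ k, coeff k (d⁄dX ℚ (hy a [some i])) = (a i : ℚ) ^ k := by
    intro k
    rw [PowerSeries.coeff_derivative]
    unfold hy
    rw [PowerSeries.coeff_mk, co_one, Nat.add_sub_cancel]
    have h2 : ((k : ℚ) + 1) ≠ 0 := by positivity
    push_cast
    field_simp
  ext k
  push_cast
  rw [sub_mul, one_mul, map_sub, mul_assoc, PowerSeries.coeff_C_mul, h1]
  rcases k with _ | k
  · simp
  · rw [PowerSeries.coeff_succ_X_mul, h1, PowerSeries.coeff_one, if_neg (Nat.succ_ne_zero k)]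
    ring

lemma hy_cv {L : ℝ} (hL : 1 ≤ L) (i : Fin m) (ha : |(a i : ℝ)| ≤ L) {t : ℝ} (ht : L < t) : Cv t (hy a [some i]) := by
  refine Cv.of_bound (A := 1) (B := L) (by linarith) (by linarith) ht fun k => ?_
  unfold hy
  rw [PowerSeries.coeff_mk, co_one, one_mul]
  push_cast
  rw [abs_div, abs_pow, Nat.abs_cast]
  rcases k with _ | k
  · simp
  · rw [Nat.add_sub_cancel, pow_succ]
    have h1 : (1 : ℝ) ≤ ((k + 1 : ℕ) : ℝ) := by exact_mod_cast Nat.succ_le_succ (Nat.zero_le k)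
    have h2 : |(a i : ℝ)| ^ k ≤ L ^ k := pow_le_pow_left₀ (abs_nonneg _) ha k
    have h3 : 0 ≤ |(a i : ℝ)| ^ k := by positivity
    calc |(a i : ℝ)| ^ k / ((k + 1 : ℕ) : ℝ) ≤ |(a i : ℝ)| ^ k := div_le_self h3 h1
      _ ≤ L ^ k := h2
      _ ≤ L ^ k * L := le_mul_of_one_le_right (by positivity) hL

lemma log_cv {L : ℝ} (hL : 1 ≤ L) (ha : ∀ i, |(a i : ℝ)| ≤ L) (c : Fin m → ℚ) {t : ℝ} (ht : L < t) :
    Cv t (∑ i, C (c i) * hy a [some i]) := by
  have ht0 : 0 < t := by linarith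
  exact Cv.sum ht0 _ _ fun i _ => Cv.mul ht0 (Cv.C _) (hy_cv a hL i (ha i) ht)

lemma log_der (c : Fin m → ℚ) :
    (((∏ i, (1 - Polynomial.C (a i : ℚ) * Polynomial.X) : Polynomial ℚ)) : ℚ⟦X⟧) *
      d⁄dX ℚ (∑ i, C (c i) * hy a [some i]) =
    ((∑ i, Polynomial.C (c i) * ∏ j ∈ Finset.univ.erase i, (1 - Polynomial.C (a j : ℚ) * Polynomial.X) :
      Polynomial ℚ) : ℚ⟦X⟧) := by
  have h0 : ∀ i, d⁄dX ℚ (C (c i) * hy a [some i]) = C (c i) * d⁄dX ℚ (hy a [some i]) := by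
    intro i
    rw [← PowerSeries.smul_eq_C_mul, Derivation.map_smul, PowerSeries.smul_eq_C_mul]
  rw [map_sum, Finset.mul_sum, ← Polynomial.coeToPowerSeries.ringHom_apply, ← Polynomial.coeToPowerSeries.ringHom_apply,
    map_sum]
  refine Finset.sum_congr rfl fun i _ => ?_
  rw [h0, map_mul, Polynomial.coeToPowerSeries.ringHom_apply, Polynomial.coeToPowerSeries.ringHom_apply,
    Polynomial.coeToPowerSeries.ringHom_apply, Polynomial.coe_C,
    ← Finset.mul_prod_erase Finset.univ _ (Finset.mem_univ i), Polynomial.coe_mul]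
  have h1 := hy_der a i
  calc _ = C (c i) * ((∏ j ∈ Finset.univ.erase i, (1 - Polynomial.C (a j : ℚ) * Polynomial.X) : Polynomial ℚ) : ℚ⟦X⟧) *
      ((((1 - Polynomial.C (a i : ℚ) * Polynomial.X : Polynomial ℚ)) : ℚ⟦X⟧) * d⁄dX ℚ (hy a [some i])) := by ring
    _ = _ := by rw [h1, mul_one]

end logs

/-- **no logarithm in the field of the families** -/
theorem nologs (hTOR : S_TOR) (hDER : S_DER) (hWRO : S_WRO) (hCHA : S_CHA) (hRAT : S_RAT) {r : ℕ} {n : Fin r → ℕ}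
    {Q : Fin r → Polynomial ℚ} {gq cq : Fin r → ℚ} {W : ∀ j, Matrix (Fin (n j)) (Fin (n j)) ℚ⟦X⟧} {L : ℝ} (hL1 : 1 ≤ L)
    (hD : DatL n Q (fun j => (gq j : ℝ)) (fun j => (cq j : ℝ)) L)
    (hS : ∀ j, Sys (n j) (Am (n j)) (Bm (n j) (Q j)) (Hp (n j) (Q j)) (W j))
    {m : ℕ} {a : Fin m → ℤ} (ha : Function.Injective a) (ha0 : ∀ i, a i ≠ 0) (haL : ∀ i, |(a i : ℝ)| ≤ L) :
    NoLogs a (hfg (blk n ℚ⟦X⟧ fun j => HH (gq j) (cq j) (Am (n j)) (Hp (n j) (Q j)))) := by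
  intro c hc P R hPR
  by_contra hP
  have hL : 0 < L := by linarith
  have hc0 : ∀ j, cq j ≠ 0 := fun j => by
    have := hD.c0 j
    exact_mod_cast this
  have hgc : ∀ j, 0 ≤ cq j * gq j := fun j => by
    have := hD.gc j
    exact_mod_cast this
  have hV : ∀ (j : Fin r) (z : ℂ), ‖z‖ < 1 / L →
      Hf (Hcg (HH (gq j) (cq j) (Am (n j)) (Hp (n j) (Q j)))) z = Fj (n j) (Q j) (gq j : ℝ) (cq j : ℝ) z := by
    intro j z hz
    rw [Hf_HH (hS j) (hc0 j) (hgc j) (Lsmall hD.L0 (hD.cL j) hz)]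
    unfold Fj
    rw [Hcg_Hp, Complex.ofReal_ratCast, Complex.ofReal_ratCast]
  have hYj : ∀ (j : Fin r) (z : ℂ), ‖z‖ < 1 / L →
      Yf (cm (Am (n j))) (Hcg (HH (gq j) (cq j) (Am (n j)) (Hp (n j) (Q j)))) z =
      Fj (n j) (Q j) (gq j : ℝ) (cq j : ℝ) z * E (cm (Am (n j))) (Complex.log z) := by
    intro j z hz
    unfold Yf
    rw [hV j z hz]
  have hYb : ∀ x : ℝ, 0 < x → x < 1 / L → ZZB n Q (fun j => (gq j : ℝ)) (fun j => (cq j : ℝ)) x =
      Yf (cm (blk n ℚ fun j => Am (n j)))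
      (Hcg (blk n ℚ⟦X⟧ fun j => HH (gq j) (cq j) (Am (n j)) (Hp (n j) (Q j)))) x := by
    intro x hx hx1
    rw [BLK.cm_blk, BLK.Hcg_blk, BLK.Yf_blk (fun j => cm (Am (n j))) (fun j => Ac_nil)]
    unfold ZZB
    congr 1
    funext j
    exact (hYj j x (by rwa [Complex.norm_real, Real.norm_of_nonneg hx.le])).symm
  have hSys := Pool.Agent.Run7.h468.CF.p_BLKL L r n _ _ _ fun j => sysL_HH (hS j) (hc0 j) (hD.cL j)
  have hd : (∏ i, (1 - Polynomial.C (a i : ℚ) * Polynomial.X) : Polynomial ℚ) ≠ 0 := by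
    refine Finset.prod_ne_zero_iff.2 fun i _ h0 => ?_
    have h1 := congrArg (Polynomial.eval 0) h0
    simp at h1
  obtain ⟨p, q, hp, hpq⟩ := core hTOR hDER hWRO hCHA (Q := Q) hL hSys
    (fun X hX => GalL_congr hYb (gal_allB t_asy p_EXT hD hX))
    (fun x hx hx1 => ⟨fun j => Fj (n j) (Q j) (gq j : ℝ) (cq j : ℝ) x * E (cm (Am (n j))) (Complex.log x),
      fun j => ZjB_mem hD j hx hx1 _, (hYb x hx hx1).symm⟩)
    (fun s => ⟨fun j => E (cm (Am (n j))) s, fun j => Gp_E (hD.q j) s, by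
      rw [BLK.cm_blk, BLK.E_blk _ fun j => Ac_nil]⟩)
    hd (log_der a c) (fun t ht => log_cv a hL1 haL c ht) hPR hP
  exact hp (hRAT m a L ha ha0 hL1 haL c hc p q hpq)

end Pool.Agent.Run7.h696.CP
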