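import Pool.Agent.Run7.h696.CP.NLC

/-!
# The theorem on tuples for hyperlogarithms and the fibres `c / (t - g)`
-/

set_option autoImplicit false

open Matrix PowerSeries
open Pool.Agent.Y113 hiding Bm
open Pool.Agent.Y120.GF Pool.Agent.Y120.GH Pool.Agent.Y119.HZ
open Pool.Agent.Y119.HY (Am Bm cm E Hf Hc Yf Ac_nil)
open Run7.h893.HO
open Pool.Agent.Run7.h225.HG Pool.Agent.Run7.h696.CF

namespace Pool.Agent.Run7.h696.CP

/-- **Few exceptional tuples, hyperlogarithms and fibres `c / (t - g)`.** -/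
theorem tuples_cp (hTOR : S_TOR) (hDER : S_DER) (hWRO : S_WRO) (hCHA : S_CHA) (hRAT : S_RAT) (hHLS : S_HLS)
    (hINDH : S_INDH) (hONEH : S_ONEH) (hFINH : S_FINH)
    (k δ D L W : ℕ) (m : Fin k → ℕ) (a : ∀ i, Fin (m i) → ℤ)
    (r : Fin k → ℕ) (n : ∀ i, Fin (r i) → ℕ) (Q : ∀ i, Fin (r i) → Polynomial ℚ)
    (gq cq : ∀ i, Fin (r i) → ℚ) (V' : ∀ i j, Matrix (Fin (n i j)) (Fin (n i j)) ℚ⟦X⟧) (hL : 1 ≤ L)
    (haL : ∀ i j, |(a i j : ℝ)| ≤ L) (ha0 : ∀ i j, a i j ≠ 0) (hai : ∀ i, Function.Injective (a i))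
    (hD : ∀ i, DatL (n i) (Q i) (fun j => (gq i j : ℝ)) (fun j => (cq i j : ℝ)) (L : ℝ))
    (hS : ∀ i j, Sys (n i j) (Am (n i j)) (Bm (n i j) (Q i j)) (Hp (n i j) (Q i j)) (V' i j)) :
    ∃ c C : ℝ, 0 < c ∧ 0 ≤ C ∧ ∀ (V : Submodule ℚ ℂ) [Module.Finite ℚ V], Module.finrank ℚ V ≤ D →
      ∀ Ω : (∀ i j, Matrix (Fin (n i j)) (Fin (n i j)) ℂ), ∀ (x : Fin k → ℕ) (N' : ℕ), (∀ i, L ≤ x i) → 1 ≤ N' →
      ∀ S : Finset (Fin k → ℕ), (∀ t ∈ S, (∀ i, x i < t i ∧ t i ≤ x i + N') ∧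
        ∃ P : (∀ i, Wd (m i) W) → MvPolynomial (Σ i : Fin k, Option (Σ j : Fin (r i), Fin (n i j) × Fin (n i j))) ℂ,
        (∀ u, (P u).totalDegree ≤ δ) ∧ (∀ u s, (P u).coeff s ∈ V) ∧
        ∑ u, MvPolynomial.aeval (pj (fun i => ((Real.log (t i) : ℝ) : ℂ)) fun i j =>
          Yb (n i j) (Q i j) (gq i j) (cq i j) (t i) * Ω i j) (P u) *
          ∏ i, ((ev (t i : ℝ) (hy (a i) (u i).1) : ℝ) : ℂ) = 0 ∧
        ∃ (u : ∀ i, Wd (m i) W) (l : Fin k → ℂ) (g : ∀ i j, Matrix (Fin (n i j)) (Fin (n i j)) ℂ),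
          (∀ i j, g i j ∈ Gp (n i j) (Q i j)) ∧
          MvPolynomial.aeval (pj l fun i j => g i j * Ω i j) (P u) ≠ 0) →
      (S.card : ℝ) ≤ C * (N' : ℝ) ^ (k - 1) * ∑ i, (1 + N' / ((x i : ℝ) + N') ^ c) := by
  have hL1 : (1 : ℝ) ≤ L := by exact_mod_cast hL
  have hnil : ∀ i j, Am (n i j) ^ n i j = 0 := fun i j => Pool.Agent.Y119.HY.Am_nil
  have hc0 : ∀ i j, cq i j ≠ 0 := fun i j => by
    have := (hD i).c0 j
    exact_mod_cast this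
  have hgc : ∀ i j, 0 ≤ cq i j * gq i j := fun i j => by
    have := (hD i).gc j
    exact_mod_cast this
  have hV : ∀ (i : Fin k) (j : Fin (r i)) (z : ℂ), ‖z‖ < 1 / L →
      Hf (Hcg (HH (gq i j) (cq i j) (Am (n i j)) (Hp (n i j) (Q i j)))) z =
      Fj (n i j) (Q i j) (gq i j : ℝ) (cq i j : ℝ) z := by
    intro i j z hz
    rw [Hf_HH (hS i j) (hc0 i j) (hgc i j) (Lsmall (hD i).L0 ((hD i).cL j) hz)]
    unfold Fj
    rw [Hcg_Hp, Complex.ofReal_ratCast, Complex.ofReal_ratCast]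
  have hY : ∀ (i : Fin k) (j : Fin (r i)) (z : ℂ), ‖z‖ < 1 / L →
      Yf (cm (Am (n i j))) (Hcg (HH (gq i j) (cq i j) (Am (n i j)) (Hp (n i j) (Q i j)))) z =
      Fj (n i j) (Q i j) (gq i j : ℝ) (cq i j : ℝ) z * E (cm (Am (n i j))) (Complex.log z) := by
    intro i j z hz
    unfold Yf
    rw [hV i j z hz]
  have hYb : ∀ (i : Fin k) (x : ℝ), 0 < x → x < 1 / L → ZZB (n i) (Q i) (fun j => (gq i j : ℝ)) (fun j => (cq i j : ℝ)) x =
      Yf (cm (blk (n i) ℚ fun j => Am (n i j)))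
      (Hcg (blk (n i) ℚ⟦X⟧ fun j => HH (gq i j) (cq i j) (Am (n i j)) (Hp (n i j) (Q i j)))) x := by
    intro i x hx hx1
    rw [BLK.cm_blk, BLK.Hcg_blk, BLK.Yf_blk (fun j => cm (Am (n i j))) (fun j => Ac_nil)]
    unfold ZZB
    congr 1
    funext j
    exact (hY i j x (by rwa [Complex.norm_real, Real.norm_of_nonneg hx.le])).symm
  have h := hFINH hHLS hINDH hONEH k δ D L W m a r n (fun i j => Am (n i j))
    (fun i j => HH (gq i j) (cq i j) (Am (n i j)) (Hp (n i j) (Q i j)))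
    (fun i j => WW (gq i j) (cq i j) (Am (n i j)) (V' i j))
    (fun i _ => {X | ∀ j, X j ∈ Gp (n i j) (Q i j)}) hL haL hnil (fun i => ?_)
    (fun i => nologs hTOR hDER hWRO hCHA hRAT hL1 (hD i) (hS i) (hai i) (ha0 i) (haL i))
    (fun i x hx hx1 X hX s => ?_)
  · obtain ⟨c, C, hc, hC, hmain⟩ := h
    refine ⟨c, C, hc, hC, ?_⟩
    intro V _ hVD Ω x N' hx hN S hSS
    refine hmain V hVD Ω x N' hx hN S fun t ht => ?_
    obtain ⟨hbox, P, h1, h2, h3, u, l, g, hg, h4⟩ := hSS t ht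
    refine ⟨hbox, P, h1, h2, ?_, u, l, g, hg, h4⟩
    refine (congrArg (fun Z => ∑ u, MvPolynomial.aeval (pj (n := n) (fun i => ((Real.log (t i) : ℝ) : ℂ)) Z) (P u) *
      ∏ i, ((ev (t i : ℝ) (hy (a i) (u i).1) : ℝ) : ℂ) = 0) ?_).mp h3
    funext i j
    congr 1
    unfold Yb Ytg
    have ht0 : (L : ℝ) < t i := by exact_mod_cast lt_of_le_of_lt (hx i) (hbox i).1
    have hL0 : (0 : ℝ) < L := (hD i).L0
    rw [hV i j _ (by
      rw [Complex.norm_real, Real.norm_of_nonneg (by positivity)]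
      exact one_div_lt_one_div_of_lt hL0 ht0)]
  · exact Pool.Agent.Run7.h468.CF.p_BLKL _ (r i) (n i) _ _ _ fun j => sysL_HH (hS i j) (hc0 i j) ((hD i).cL j)
  · have hZ : ∀ j, Fj (n i j) (Q i j) (gq i j : ℝ) (cq i j : ℝ) x * E (cm (Am (n i j))) (Complex.log x) ∈
        Gp (n i j) (Q i j) := fun j => ZjB_mem (hD i) j hx hx1 _
    refine ⟨fun j => (Fj (n i j) (Q i j) (gq i j : ℝ) (cq i j : ℝ) x * E (cm (Am (n i j))) (Complex.log x))⁻¹ *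
      (X j * E (cm (Am (n i j))) s), ?_, fun j => ?_⟩
    · exact GalL_congr (hYb i) (gal_allB t_asy p_EXT (hD i) fun j =>
        Gp_mul (Gp_inv (hZ j)) (Gp_mul (hX j) (Gp_E ((hD i).q j) s)))
    · rw [hY i j x (by rwa [Complex.norm_real, Real.norm_of_nonneg hx.le])]
      have hu : IsUnit (Fj (n i j) (Q i j) (gq i j : ℝ) (cq i j : ℝ) x * E (cm (Am (n i j))) (Complex.log x)).det := by
        rw [(hZ j).1]
        exact isUnit_one
      rw [← Matrix.mul_assoc, Matrix.mul_nonsing_inv _ hu, one_mul]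

end Pool.Agent.Run7.h696.CP
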