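import Pool.Agent.Run7.h696.CP.Iface
import Pool.Agent.Run7.h225.HG.SLG
import Pool.Agent.Run7.h225.HG.GRP

/-!
# Additive functions on products of `SL` and `Sp` vanish
-/

set_option autoImplicit false

open Matrix
open Pool.Agent.Y113 hiding Bm
open Pool.Agent.Y120.GF Pool.Agent.Y120.GH Pool.Agent.Y119.HZ
open Pool.Agent.Y119.HY (Am Jm Bm cm E QD om om_eq om_self tv tv_mulVec tv_isom Jc_skew Jc_det)
open Pool.Agent.Run7.h225.HG Pool.Agent.Run7.h696.CF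

namespace Pool.Agent.Run7.h696.CP

/-- the transvections generate the symplectic group -/
theorem sp_gen {n : ℕ} {J : Matrix (Fin n) (Fin n) ℂ} (hJ : J.transpose = -J) (hdet : J.det ≠ 0)
    (S : Submonoid (Matrix (Fin n) (Fin n) ℂ)) (hS : ∀ u c, tv J u c ∈ S)
    (g : Matrix (Fin n) (Fin n) ℂ) (hg : g.transpose * J * g = J) : g ∈ S := by
  set ω : (Fin n → ℂ) →ₗ[ℂ] (Fin n → ℂ) →ₗ[ℂ] ℂ := Matrix.toLinearMap₂' ℂ J with hω
  have hωa : ∀ u v, ω u v = om J u v := by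
    intro u v
    rw [hω, Matrix.toLinearMap₂'_apply']
    rfl
  have h0 : ∀ v, ω v v = 0 := fun v => by rw [hωa, om_self hJ]
  have hnd : ∀ u, (∀ v, ω u v = 0) → u = 0 := by
    intro u hu
    have h1 : ∀ w : Fin n → ℂ, u ⬝ᵥ w = 0 := by
      intro w
      have h2 := hu (J⁻¹ *ᵥ w)
      rw [hωa] at h2
      unfold om at h2
      rw [mulVec_mulVec, mul_nonsing_inv _ (Ne.isUnit hdet), one_mulVec] at h2
      exact h2
    funext i
    have := h1 (Pi.single i 1)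
    rwa [dotProduct_single_one] at this
  have hpres : ∀ u v, ω (Matrix.toLin' g u) (Matrix.toLin' g v) = ω u v := by
    intro u v
    rw [hωa, hωa, toLin'_apply, toLin'_apply]
    unfold om
    rw [mulVec_mulVec, ← vecMul_transpose, ← dotProduct_mulVec, mulVec_mulVec, ← Matrix.mul_assoc, hg]
  have hmem := Pool.Agent.W948.ZC.TR.aux ℂ _ (Fin n → ℂ) ω rfl h0 hnd (Matrix.toLin' g) hpres
  have key : ∀ T ∈ Pool.Agent.W948.ZC.TR.G ω, LinearMap.toMatrix' T ∈ S := by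
    intro T hT
    unfold Pool.Agent.W948.ZC.TR.G at hT
    induction hT using Submonoid.closure_induction with
    | mem T h =>
      obtain ⟨c, u, rfl⟩ := h
      have h1 : LinearMap.toMatrix' (1 + c • (ω u).smulRight u) = tv J u c := by
        apply (Matrix.toLin'.injective)
        rw [toLin'_toMatrix']
        ext x i
        have h2 : (Matrix.toLin' (tv J u c)) (Pi.single x 1) = tv J u c *ᵥ (Pi.single x 1) := rfl
        rw [LinearMap.comp_apply, LinearMap.comp_apply, LinearMap.single_apply, h2, tv_mulVec, ← hωa]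
        simp [LinearMap.add_apply, mul_assoc]
      rw [h1]
      exact hS _ c
    | one =>
      have : LinearMap.toMatrix' (1 : Module.End ℂ (Fin n → ℂ)) = 1 := LinearMap.toMatrix'_id
      rw [this]
      exact one_mem _
    | mul A B _ _ hA hB =>
      have : LinearMap.toMatrix' (A * B) = LinearMap.toMatrix' A * LinearMap.toMatrix' B :=
        LinearMap.toMatrix'_mul A B
      rw [this]
      exact mul_mem hA hB
  have := key _ hmem
  rwa [LinearMap.toMatrix'_toLin'] at this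

lemma det_tr {n : ℕ} {w μ : Fin n → ℂ} (h : μ ⬝ᵥ w = 0) (s : ℂ) : (1 + s • vecMulVec w μ).det = 1 := by
  have h1 : s • vecMulVec w μ = vecMulVec (s • w) μ := by rw [smul_vecMulVec]
  rw [h1, Matrix.vecMulVec_eq Unit, Matrix.det_one_add_replicateCol_mul_replicateRow, dotProduct_smul, h, smul_zero, add_zero]

/-- an additive function vanishes on a transvection which is conjugate to its fourth power -/
lemma add_tr {n : ℕ} {S : Set (Matrix (Fin n) (Fin n) ℂ)} {φ : Matrix (Fin n) (Fin n) ℂ → ℂ}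
    (hφ : ∀ X ∈ S, ∀ Z ∈ S, φ (X * Z) = φ X + φ Z) {w μ : Fin n → ℂ} (h : μ ⬝ᵥ w = 0)
    (ht : ∀ s : ℂ, 1 + s • vecMulVec w μ ∈ S) {γ : Matrix (Fin n) (Fin n) ℂ} (hγ : γ ∈ S)
    (hc : ∀ s : ℂ, γ * (1 + s • vecMulVec w μ) = (1 + (4 * s) • vecMulVec w μ) * γ) (s : ℂ) :
    φ (1 + s • vecMulVec w μ) = 0 := by
  have h1 := congrArg φ (hc s)
  rw [hφ _ hγ _ (ht s), hφ _ (ht _) _ hγ] at h1
  have h2 : φ (1 + (s + s) • vecMulVec w μ) = φ (1 + s • vecMulVec w μ) + φ (1 + s • vecMulVec w μ) := by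
    rw [← uni_mul h, hφ _ (ht s) _ (ht s)]
  have h3 : φ (1 + (s + s + (s + s)) • vecMulVec w μ) = φ (1 + (s + s) • vecMulVec w μ) +
      φ (1 + (s + s) • vecMulVec w μ) := by
    rw [← uni_mul h, hφ _ (ht _) _ (ht _)]
  have h4 : s + s + (s + s) = 4 * s := by ring
  rw [h4, h2] at h3
  have h5 : (3 : ℂ) * φ (1 + s • vecMulVec w μ) = 0 := by linear_combination (-1 : ℂ) * h1 - h3
  exact (mul_eq_zero.1 h5).resolve_left (by norm_num)

/-- **additive functions on the group of one family vanish** -/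
theorem add_one' (hTOR : S_TOR) {n : ℕ} {Q : Polynomial ℚ} {φ : Matrix (Fin n) (Fin n) ℂ → ℂ}
    (hφ : ∀ X ∈ Gp n Q, ∀ Z ∈ Gp n Q, φ (X * Z) = φ X + φ Z) {X : Matrix (Fin n) (Fin n) ℂ} (hX : X ∈ Gp n Q) :
    φ X = 0 := by
  have h1m : (1 : Matrix (Fin n) (Fin n) ℂ) ∈ Gp n Q :=
    ⟨Matrix.det_one, fun _ => by rw [Matrix.transpose_one, one_mul, mul_one]⟩
  have h1 : φ 1 = 0 := by
    have h2 := hφ 1 h1m 1 h1m
    rw [mul_one] at h2
    linear_combination -h2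
  set S : Submonoid (Matrix (Fin n) (Fin n) ℂ) :=
    { carrier := {X | X ∈ Gp n Q ∧ φ X = 0}
      one_mem' := ⟨h1m, h1⟩
      mul_mem' := fun {a b} ha hb => ⟨Gp_mul ha.1 hb.1, by rw [hφ a ha.1 b hb.1, ha.2, hb.2, add_zero]⟩ } with hSd
  have hmem : ∀ X, X ∈ S ↔ X ∈ Gp n Q ∧ φ X = 0 := fun X => Iff.rfl
  suffices h : X ∈ S from ((hmem X).1 h).2
  by_cases hQD : QD n Q
  · have hu : IsUnit (cm (Jm n Q)).det := (Jc_det hQD).isUnit
    refine sp_gen (Jc_skew hQD) (Jc_det hQD) S (fun u c => ?_) X (hX.2 hQD)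
    have he : u ᵥ* cm (Jm n Q) = -(cm (Jm n Q) *ᵥ u) := by
      rw [← mulVec_transpose, Jc_skew hQD, neg_mulVec]
    have htv : ∀ s : ℂ, 1 + s • vecMulVec u (cm (Jm n Q) *ᵥ u) = tv (cm (Jm n Q)) u (-s) := by
      intro s
      unfold tv
      rw [he, vecMulVec_neg, smul_neg, neg_smul, neg_neg]
    have h0 : (cm (Jm n Q) *ᵥ u) ⬝ᵥ u = 0 := by
      have h2 := om_self (Jc_skew hQD) u
      rw [om_eq, he, neg_dotProduct, neg_eq_zero] at h2
      exact h2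
    have ht : ∀ s : ℂ, 1 + s • vecMulVec u (cm (Jm n Q) *ᵥ u) ∈ Gp n Q := fun s =>
      ⟨det_tr h0 s, fun _ => by rw [htv]; exact tv_isom (Jc_skew hQD) u _⟩
    obtain ⟨γ, h3, h4, h5⟩ := hTOR.2 n (cm (Jm n Q)) u (Jc_skew hQD) hu
    have h6 : tv (cm (Jm n Q)) u c = 1 + (-c) • vecMulVec u (cm (Jm n Q) *ᵥ u) := by
      rw [htv, neg_neg]
    rw [h6, hmem]
    exact ⟨ht _, add_tr hφ h0 ht ⟨h3, fun _ => h4⟩ h5 _⟩
  · refine p_SLG n S (fun w ξ hw => ?_) X hX.1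
    have ht : ∀ s : ℂ, 1 + s • vecMulVec w ξ ∈ Gp n Q := fun s => ⟨det_tr hw s, fun h => absurd h hQD⟩
    obtain ⟨γ, h3, h5⟩ := hTOR.1 n w ξ hw
    have h6 : 1 + vecMulVec w ξ = 1 + (1 : ℂ) • vecMulVec w ξ := by rw [one_smul]
    rw [h6, hmem]
    exact ⟨ht _, add_tr hφ hw ht ⟨h3, fun h => absurd h hQD⟩ h5 _⟩

/-- **additive functions on the product of the groups vanish** -/
theorem add_all (hTOR : S_TOR) {r : ℕ} {n : Fin r → ℕ} {Q : Fin r → Polynomial ℚ}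
    {φ : (∀ j, Matrix (Fin (n j)) (Fin (n j)) ℂ) → ℂ}
    (hφ : ∀ X, (∀ j, X j ∈ Gp (n j) (Q j)) → ∀ Z, (∀ j, Z j ∈ Gp (n j) (Q j)) → φ (X * Z) = φ X + φ Z)
    {X : ∀ j, Matrix (Fin (n j)) (Fin (n j)) ℂ} (hX : ∀ j, X j ∈ Gp (n j) (Q j)) : φ X = 0 := by
  have h1m : ∀ j, (1 : Matrix (Fin (n j)) (Fin (n j)) ℂ) ∈ Gp (n j) (Q j) := fun j =>
    ⟨Matrix.det_one, fun _ => by rw [Matrix.transpose_one, one_mul, mul_one]⟩
  have h1 : φ 1 = 0 := by
    have h2 := hφ 1 h1m 1 h1m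
    rw [mul_one] at h2
    linear_combination -h2
  set S : Submonoid (∀ j, Matrix (Fin (n j)) (Fin (n j)) ℂ) :=
    { carrier := {X | (∀ j, X j ∈ Gp (n j) (Q j)) ∧ φ X = 0}
      one_mem' := ⟨h1m, h1⟩
      mul_mem' := fun {a b} ha hb => ⟨fun j => Gp_mul (ha.1 j) (hb.1 j),
        by rw [hφ a ha.1 b hb.1, ha.2, hb.2, add_zero]⟩ } with hSd
  have hmem : ∀ X, X ∈ S ↔ (∀ j, X j ∈ Gp (n j) (Q j)) ∧ φ X = 0 := fun X => Iff.rfl
  suffices h : X ∈ S from ((hmem X).1 h).2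
  have hs : ∀ i (Z : Matrix (Fin (n i)) (Fin (n i)) ℂ), Z ∈ Gp (n i) (Q i) →
      ∀ j, (Pi.mulSingle i Z : ∀ j, Matrix (Fin (n j)) (Fin (n j)) ℂ) j ∈ Gp (n j) (Q j) := by
    intro i Z hZ j
    by_cases hij : j = i
    · subst hij
      rw [Pi.mulSingle_eq_same]
      exact hZ
    · rw [Pi.mulSingle_eq_of_ne hij]
      exact h1m j
  refine all_of_single fun i => ?_
  rw [hmem]
  refine ⟨hs i _ (hX i), ?_⟩
  refine add_one' hTOR (n := n i) (Q := Q i)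
    (φ := fun Z => φ (Pi.mulSingle i Z : ∀ j, Matrix (Fin (n j)) (Fin (n j)) ℂ)) (fun A hA B hB => ?_) (hX i)
  show φ (Pi.mulSingle i (A * B)) = _
  rw [Pi.mulSingle_mul]
  exact hφ _ (hs i A hA) _ (hs i B hB)

end Pool.Agent.Run7.h696.CP
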