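import Pool.Agent.Run7.h696.CP.NLA

/-!
# No logarithm in a field whose group has no additive functions
-/

set_option autoImplicit false

open PowerSeries Matrix
open Pool.Agent.Y113 hiding Bm
open Pool.Agent.Y120.GF Pool.Agent.Y120.GH Pool.Agent.Y119.HZ
open Pool.Agent.Y119.HY (cm E Hf Yf Vr sb ev_sb E_mul_neg)
open Pool.Agent.Run7.h225.HG Pool.Agent.Run7.h225.HG.SYS2 Pool.Agent.Run7.h696.CF
open Pool.Agent.Run7.h468.CF

namespace Pool.Agent.Run7.h696.CP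

/-- a power series with value zero on an interval vanishes -/
theorem ps_zero {L : ℝ} (hL : 0 < L) {f : ℚ⟦X⟧} (hf : ∀ t : ℝ, L < t → Cv t f)
    (h0 : ∀ x : ℝ, 0 < x → x < 1 / L → ev (1 / x) f = 0) : f = 0 := by
  have hx0 : 0 < 1 / (2 * L) := by positivity
  have hx1 : 1 / (2 * L) < 1 / L := one_div_lt_one_div_of_lt hL (by linarith)
  set x0 : ℝ := 1 / (2 * L) with hx0d
  have hs0 : Summable fun m : ℕ => |((coeff m f : ℚ) : ℝ)| * x0 ^ m := by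
    have h1 := hf (2 * L) (by linarith)
    exact h1
  set K : ℝ := ∑' m : ℕ, |((coeff m f : ℚ) : ℝ)| * x0 ^ m with hK
  have hK0 : 0 ≤ K := tsum_nonneg fun m => by positivity
  ext m
  rw [map_zero]
  induction m using Nat.strong_induction_on with
  | _ m ih =>
    have key : ∀ x : ℝ, 0 < x → x ≤ x0 → |((coeff m f : ℚ) : ℝ)| ≤ x * (K / x0 ^ (m + 1)) := by
      intro x hx hxx
      have hxp : 0 < x ^ m := pow_pos hx m
      have hs : Summable fun l : ℕ => ((coeff l f : ℚ) : ℝ) * x ^ l := by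
        refine Summable.of_norm_bounded hs0 fun l => ?_
        rw [norm_mul, Real.norm_eq_abs, Real.norm_of_nonneg (by positivity)]
        exact mul_le_mul_of_nonneg_left (pow_le_pow_left₀ hx.le hxx l) (abs_nonneg _)
      have h1 : ∑' l : ℕ, ((coeff l f : ℚ) : ℝ) * x ^ l = 0 := by
        have h2 := h0 x hx (lt_of_le_of_lt hxx hx1)
        unfold ev at h2
        rw [one_div_one_div] at h2
        exact h2
      have h2 := hs.sum_add_tsum_nat_add (m + 1)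
      rw [h1, Finset.sum_range_succ, Finset.sum_eq_zero (fun l hl => by
        rw [ih l (Finset.mem_range.1 hl), Rat.cast_zero, zero_mul]), zero_add] at h2
      have hb : ∀ l : ℕ, |((coeff (l + (m + 1)) f : ℚ) : ℝ)| * x ^ (l + (m + 1)) ≤
          (x / x0) ^ (m + 1) * (|((coeff (l + (m + 1)) f : ℚ) : ℝ)| * x0 ^ (l + (m + 1))) := by
        intro l
        have e1 : (x / x0) ^ (m + 1) * (|((coeff (l + (m + 1)) f : ℚ) : ℝ)| * x0 ^ (l + (m + 1))) =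
            |((coeff (l + (m + 1)) f : ℚ) : ℝ)| * (x0 ^ l * x ^ (m + 1)) := by
          rw [div_pow]
          field_simp
          ring
        rw [e1, pow_add x]
        refine mul_le_mul_of_nonneg_left (mul_le_mul_of_nonneg_right (pow_le_pow_left₀ hx.le hxx l) (by positivity))
          (abs_nonneg _)
      have hs1 : Summable fun l : ℕ => |((coeff (l + (m + 1)) f : ℚ) : ℝ)| * x0 ^ (l + (m + 1)) :=
        (summable_nat_add_iff (m + 1)).2 hs0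
      have hs2 : Summable fun l : ℕ => |((coeff (l + (m + 1)) f : ℚ) : ℝ)| * x ^ (l + (m + 1)) :=
        Summable.of_nonneg_of_le (fun l => by positivity) hb (hs1.mul_left _)
      have h3 : |∑' l : ℕ, ((coeff (l + (m + 1)) f : ℚ) : ℝ) * x ^ (l + (m + 1))| ≤ (x / x0) ^ (m + 1) * K := by
        have h4 : ∀ l : ℕ, ‖((coeff (l + (m + 1)) f : ℚ) : ℝ) * x ^ (l + (m + 1))‖ =
            |((coeff (l + (m + 1)) f : ℚ) : ℝ)| * x ^ (l + (m + 1)) := fun l => by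
          rw [norm_mul, Real.norm_eq_abs, Real.norm_of_nonneg (by positivity)]
        have h5 := norm_tsum_le_tsum_norm (f := fun l : ℕ => ((coeff (l + (m + 1)) f : ℚ) : ℝ) * x ^ (l + (m + 1)))
          (by simp only [h4]; exact hs2)
        simp only [h4] at h5
        rw [Real.norm_eq_abs] at h5
        refine h5.trans ((hs2.tsum_le_tsum hb (hs1.mul_left _)).trans ?_)
        rw [tsum_mul_left]
        refine mul_le_mul_of_nonneg_left ?_ (by positivity)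
        rw [hK, ← hs0.sum_add_tsum_nat_add (m + 1)]
        exact le_add_of_nonneg_left (Finset.sum_nonneg fun l _ => by positivity)
      have h4 : ((coeff m f : ℚ) : ℝ) * x ^ m = -∑' l : ℕ, ((coeff (l + (m + 1)) f : ℚ) : ℝ) * x ^ (l + (m + 1)) := by
        linarith
      have h5 : |((coeff m f : ℚ) : ℝ)| * x ^ m ≤ (x / x0) ^ (m + 1) * K := by
        rw [← abs_of_pos hxp, ← abs_mul, h4, abs_neg]
        exact h3
      have h6 : (x / x0) ^ (m + 1) * K = x * (K / x0 ^ (m + 1)) * x ^ m := by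
        rw [div_pow, pow_succ x]
        field_simp
      rw [h6] at h5
      exact le_of_mul_le_mul_right h5 hxp
    have h7 : |((coeff m f : ℚ) : ℝ)| ≤ 0 := by
      refine le_of_forall_pos_le_add fun ε hε => ?_
      rw [zero_add]
      have hKp : 0 ≤ K / x0 ^ (m + 1) := by positivity
      set A := K / x0 ^ (m + 1) with hA
      set x : ℝ := min x0 (ε / (A + 1)) with hxd
      have hx : 0 < x := lt_min hx0 (by positivity)
      refine (key x hx (min_le_left _ _)).trans ?_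
      calc x * A ≤ ε / (A + 1) * A := mul_le_mul_of_nonneg_right (min_le_right _ _) hKp
        _ ≤ ε / (A + 1) * (A + 1) := mul_le_mul_of_nonneg_left (by linarith) (by positivity)
        _ = ε := by field_simp
    have h8 := abs_eq_zero.1 (le_antisymm h7 (abs_nonneg _))
    exact_mod_cast h8

section vp

variable {m : ℕ} {L : ℝ} {N : Matrix (Fin m) (Fin m) ℚ} {H W : Matrix (Fin m) (Fin m) ℚ⟦X⟧}

lemma vP_eq (P : MvPolynomial (Fin (m * m)) (Polynomial ℚ)) (g : Matrix (Fin m) (Fin m) ℂ) (x : ℝ) :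
    vP N H P g x = Pool.Agent.Y119.HY.ev (PR (cm N) P) (x : ℂ) (Complex.log (x : ℂ)) (Yf (cm N) (Hcg H) (x : ℂ) * g) := by
  rw [ev_PR]
  rfl

lemma vP_one (hL : 0 < L) (h : SysL L m N H W) (P : MvPolynomial (Fin (m * m)) (Polynomial ℚ)) {x : ℝ} (hx : 0 < x)
    (hx1 : x < 1 / L) : vP N H P 1 x = ((ev (1 / x) (MvPolynomial.aeval (hfg H) P) : ℝ) : ℂ) := by
  have hN : cm N ^ m = 0 := cm_nilG h.nil
  have hx' : L < 1 / x := by
    rw [lt_div_iff₀ hL] at hx1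
    rw [lt_div_iff₀ hx]
    linarith
  rw [(ev_aeval_G hL h hx' P).2]
  unfold vP
  rw [one_div_one_div]
  congr 1
  funext j
  have e1 : Yf (cm N) (Hcg H) (x : ℂ) * 1 * E (cm N) (-Complex.log x) = Hf (Hcg H) (x : ℂ) := by
    unfold Yf
    rw [mul_one, Matrix.mul_assoc, E_mul_neg hN, mul_one]
  rw [e1]
  unfold hfg
  rw [ev_H, one_div_one_div]

end vp

/-- **The logarithm would be rational.** -/
theorem core (hTOR : S_TOR) (hDER : S_DER) (hWRO : S_WRO) (hCHA : S_CHA) {r : ℕ} {n : Fin r → ℕ}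
    {Q : Fin r → Polynomial ℚ} {L : ℝ} (hL : 0 < L)
    {N : Matrix (Fin (∑ j, n j)) (Fin (∑ j, n j)) ℚ} {H W : Matrix (Fin (∑ j, n j)) (Fin (∑ j, n j)) ℚ⟦X⟧}
    (hS : SysL L (∑ j, n j) N H W)
    (hG : ∀ X : ∀ j, Matrix (Fin (n j)) (Fin (n j)) ℂ, (∀ j, X j ∈ Gp (n j) (Q j)) →
      blk n ℂ X ∈ GalL L (Yf (cm N) (Hcg H)))
    (hY : ∀ x : ℝ, 0 < x → x < 1 / L → ∃ X : ∀ j, Matrix (Fin (n j)) (Fin (n j)) ℂ, (∀ j, X j ∈ Gp (n j) (Q j)) ∧
      Yf (cm N) (Hcg H) (x : ℂ) = blk n ℂ X)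
    (hE : ∀ s : ℂ, ∃ X : ∀ j, Matrix (Fin (n j)) (Fin (n j)) ℂ, (∀ j, X j ∈ Gp (n j) (Q j)) ∧ E (cm N) s = blk n ℂ X)
    {Λ : ℚ⟦X⟧} {d e : Polynomial ℚ} (hd : d ≠ 0) (hde : (d : ℚ⟦X⟧) * d⁄dX ℚ Λ = (e : ℚ⟦X⟧))
    (hΛ : ∀ t : ℝ, L < t → Cv t Λ)
    {P R : MvPolynomial (Fin ((∑ j, n j) * (∑ j, n j))) (Polynomial ℚ)}
    (hPR : MvPolynomial.aeval (hfg H) P * Λ = MvPolynomial.aeval (hfg H) R) (hP : MvPolynomial.aeval (hfg H) P ≠ 0) :
    ∃ p q : Polynomial ℂ, p ≠ 0 ∧ ∀ x : ℝ, 0 < x → x < 1 / L →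
      p.eval (x : ℂ) * ((ev (1 / x) Λ : ℝ) : ℂ) = q.eval (x : ℂ) := by
  classical
  have hN : cm N ^ (∑ j, n j) = 0 := cm_nilG hS.nil
  have hu : ∀ X : ∀ j, Matrix (Fin (n j)) (Fin (n j)) ℂ, (∀ j, X j ∈ Gp (n j) (Q j)) → ∀ j, IsUnit (X j).det :=
    fun X hX j => by rw [(hX j).1]; exact isUnit_one
  have hgt : ∀ x : ℝ, 0 < x → x < 1 / L → L < 1 / x := by
    intro x hx hx1
    rw [lt_div_iff₀ hL] at hx1
    rw [lt_div_iff₀ hx]
    linarith
  -- the value at the unit matrix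
  have h1ne : ¬ ∀ x : ℝ, 0 < x → x < 1 / L → vP N H P 1 x = 0 := by
    intro h
    refine hP (ps_zero hL (fun t ht => (ev_aeval_G hL hS ht P).1) fun x hx hx1 => ?_)
    have h2 := h x hx hx1
    rw [vP_one hL hS P hx hx1] at h2
    exact_mod_cast h2
  have h1R : ∀ x : ℝ, 0 < x → x < 1 / L → vP N H R 1 x = ((ev (1 / x) Λ : ℝ) : ℂ) * vP N H P 1 x := by
    intro x hx hx1
    have ht := hgt x hx hx1
    rw [vP_one hL hS P hx hx1, vP_one hL hS R hx hx1, ← hPR,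
      Cv.ev_mul (by positivity) (ev_aeval_G hL hS ht P).1 (hΛ _ ht)]
    push_cast
    ring
  -- the values at the elements of the group
  have hne : ∀ X : ∀ j, Matrix (Fin (n j)) (Fin (n j)) ℂ, (∀ j, X j ∈ Gp (n j) (Q j)) →
      ¬ ∀ x : ℝ, 0 < x → x < 1 / L → vP N H P (blk n ℂ X) x = 0 := by
    intro X hX h
    apply h1ne
    have hrel : sb 0 (blk n ℂ X) (PR (cm N) P) ∈ RelL L (Yf (cm N) (Hcg H)) := by
      intro x hx hx1
      rw [ev_sb, add_zero, ← vP_eq]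
      exact h x hx hx1
    intro x hx hx1
    have h2 := hG (fun j => (X j)⁻¹) (fun j => Gp_inv (hX j)) _ hrel x hx hx1
    rw [ev_sb, add_zero, Matrix.mul_assoc, ← map_mul] at h2
    have h3 : (fun j => (X j)⁻¹) * X = 1 := by
      funext j
      rw [Pi.mul_apply, Pi.one_apply, Matrix.nonsing_inv_mul _ (hu X hX j)]
    rw [h3, map_one] at h2
    rw [vP_eq]
    exact h2
  have hex : ∀ X : ∀ j, Matrix (Fin (n j)) (Fin (n j)) ℂ, (∀ j, X j ∈ Gp (n j) (Q j)) →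
      ∃ φ : ℂ, ∀ x : ℝ, 0 < x → x < 1 / L →
        vP N H R (blk n ℂ X) x = (((ev (1 / x) Λ : ℝ) : ℂ) + φ) * vP N H P (blk n ℂ X) x := fun X hX =>
    (hCHA hDER hWRO L _ N H W hL hS Λ d e hd hde hΛ P R hPR _ (hG X hX)).resolve_left (hne X hX)
  set φ : (∀ j, Matrix (Fin (n j)) (Fin (n j)) ℂ) → ℂ := fun X =>
    if hX : ∀ j, X j ∈ Gp (n j) (Q j) then (hex X hX).choose else 0 with hφd
  have hφ : ∀ X : ∀ j, Matrix (Fin (n j)) (Fin (n j)) ℂ, (∀ j, X j ∈ Gp (n j) (Q j)) →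
      ∀ x : ℝ, 0 < x → x < 1 / L →
        vP N H R (blk n ℂ X) x = (((ev (1 / x) Λ : ℝ) : ℂ) + φ X) * vP N H P (blk n ℂ X) x := by
    intro X hX x hx hx1
    have h2 := (hex X hX).choose_spec x hx hx1
    rw [hφd]
    simp only [dif_pos hX]
    exact h2
  have hmul : ∀ X : ∀ j, Matrix (Fin (n j)) (Fin (n j)) ℂ, (∀ j, X j ∈ Gp (n j) (Q j)) →
      ∀ Z : ∀ j, Matrix (Fin (n j)) (Fin (n j)) ℂ, (∀ j, Z j ∈ Gp (n j) (Q j)) → φ (X * Z) = φ X + φ Z := by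
    intro X hX Z hZ
    have hXZ : ∀ j, (X * Z) j ∈ Gp (n j) (Q j) := fun j => Gp_mul (hX j) (hZ j)
    set Pp := PR (cm N) P with hPp
    set Rp := PR (cm N) R with hRp
    have hrel : sb 0 (blk n ℂ Z) Rp * Pp - sb 0 (blk n ℂ Z) Pp * Rp -
        MvPolynomial.C (φ Z) * (sb 0 (blk n ℂ Z) Pp * Pp) ∈ RelL L (Yf (cm N) (Hcg H)) := by
      intro x hx hx1
      have e1 : ∀ S : MvPolynomial (Vr (∑ j, n j)) ℂ, Pool.Agent.Y119.HY.ev (sb 0 (blk n ℂ Z) S) (x : ℂ)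
          (Complex.log x) (Yf (cm N) (Hcg H) (x : ℂ)) =
          Pool.Agent.Y119.HY.ev S (x : ℂ) (Complex.log x) (Yf (cm N) (Hcg H) (x : ℂ) * blk n ℂ Z) := fun S => by
        rw [ev_sb, add_zero]
      have e2 : ∀ S : MvPolynomial (Fin ((∑ j, n j) * (∑ j, n j))) (Polynomial ℚ),
          Pool.Agent.Y119.HY.ev (PR (cm N) S) (x : ℂ) (Complex.log x) (Yf (cm N) (Hcg H) (x : ℂ)) = vP N H S 1 x := fun S => by
        rw [vP_eq, mul_one]
      have e3 : ∀ S T : MvPolynomial (Vr (∑ j, n j)) ℂ, ∀ l : ℂ, ∀ M : Matrix (Fin (∑ j, n j)) (Fin (∑ j, n j)) ℂ,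
          Pool.Agent.Y119.HY.ev (S * T) (x : ℂ) l M =
          Pool.Agent.Y119.HY.ev S (x : ℂ) l M * Pool.Agent.Y119.HY.ev T (x : ℂ) l M := fun S T l M => map_mul _ _ _
      have e4 : ∀ S T : MvPolynomial (Vr (∑ j, n j)) ℂ, ∀ l : ℂ, ∀ M : Matrix (Fin (∑ j, n j)) (Fin (∑ j, n j)) ℂ,
          Pool.Agent.Y119.HY.ev (S - T) (x : ℂ) l M =
          Pool.Agent.Y119.HY.ev S (x : ℂ) l M - Pool.Agent.Y119.HY.ev T (x : ℂ) l M := fun S T l M => map_sub _ _ _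
      have e5 : ∀ a l : ℂ, ∀ M : Matrix (Fin (∑ j, n j)) (Fin (∑ j, n j)) ℂ,
          Pool.Agent.Y119.HY.ev (MvPolynomial.C a) (x : ℂ) l M = a := fun a l M => MvPolynomial.eval_C _
      rw [e4, e4, e3, e3, e3, e3, e5, e1, e1, hPp, hRp, e2, e2, ← vP_eq, ← vP_eq, hφ Z hZ x hx hx1, h1R x hx hx1]
      ring
    have hprod : ∀ x ∈ Set.Ioo (0 : ℝ) (1 / L), vP N H P (blk n ℂ (X * Z)) x * vP N H P (blk n ℂ X) x *
        (φ (X * Z) - φ X - φ Z) = 0 := by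
      rintro x ⟨hx, hx1⟩
      have h2 := hG X hX _ hrel x hx hx1
      have e1 : ∀ S : MvPolynomial (Vr (∑ j, n j)) ℂ, Pool.Agent.Y119.HY.ev (sb 0 (blk n ℂ Z) S) (x : ℂ)
          (Complex.log x) (Yf (cm N) (Hcg H) (x : ℂ) * blk n ℂ X) =
          Pool.Agent.Y119.HY.ev S (x : ℂ) (Complex.log x) (Yf (cm N) (Hcg H) (x : ℂ) * blk n ℂ (X * Z)) := fun S => by
        rw [ev_sb, add_zero, Matrix.mul_assoc, ← map_mul]
      have e3 : ∀ S T : MvPolynomial (Vr (∑ j, n j)) ℂ, ∀ l : ℂ, ∀ M : Matrix (Fin (∑ j, n j)) (Fin (∑ j, n j)) ℂ,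
          Pool.Agent.Y119.HY.ev (S * T) (x : ℂ) l M =
          Pool.Agent.Y119.HY.ev S (x : ℂ) l M * Pool.Agent.Y119.HY.ev T (x : ℂ) l M := fun S T l M => map_mul _ _ _
      have e4 : ∀ S T : MvPolynomial (Vr (∑ j, n j)) ℂ, ∀ l : ℂ, ∀ M : Matrix (Fin (∑ j, n j)) (Fin (∑ j, n j)) ℂ,
          Pool.Agent.Y119.HY.ev (S - T) (x : ℂ) l M =
          Pool.Agent.Y119.HY.ev S (x : ℂ) l M - Pool.Agent.Y119.HY.ev T (x : ℂ) l M := fun S T l M => map_sub _ _ _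
      have e5 : ∀ a l : ℂ, ∀ M : Matrix (Fin (∑ j, n j)) (Fin (∑ j, n j)) ℂ,
          Pool.Agent.Y119.HY.ev (MvPolynomial.C a) (x : ℂ) l M = a := fun a l M => MvPolynomial.eval_C _
      rw [e4, e4, e3, e3, e3, e3, e5, e1, e1, hPp, hRp, ← vP_eq, ← vP_eq, ← vP_eq, ← vP_eq,
        hφ (X * Z) hXZ x hx hx1, hφ X hX x hx hx1] at h2
      linear_combination h2
    by_contra hcon
    have hc : φ (X * Z) - φ X - φ Z ≠ 0 := by
      intro h2
      apply hcon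
      linear_combination h2
    obtain ⟨T, -, hT⟩ := hDER L _ N H W hL hS
    obtain ⟨P', -, hP'⟩ := hT P
    have h3 := (hP' (blk n ℂ (X * Z))).1.eq_zero_or_eq_zero_of_mul_eq_zero (hP' (blk n ℂ X)).1
      (fun x hx => (mul_eq_zero.1 (hprod x hx)).resolve_right hc) isPreconnected_Ioo
    rcases h3 with h3 | h3
    · exact hne (X * Z) hXZ fun x hx hx1 => h3 x ⟨hx, hx1⟩
    · exact hne X hX fun x hx hx1 => h3 x ⟨hx, hx1⟩
  have hφ0 : ∀ X : ∀ j, Matrix (Fin (n j)) (Fin (n j)) ℂ, (∀ j, X j ∈ Gp (n j) (Q j)) → φ X = 0 := fun X hX =>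
    add_all hTOR hmul hX
  -- the values of the polynomials
  have hval : ∀ x : ℝ, 0 < x → x < 1 / L → ∀ Z : ∀ j, Matrix (Fin (n j)) (Fin (n j)) ℂ, (∀ j, Z j ∈ Gp (n j) (Q j)) →
      ∃ X : ∀ j, Matrix (Fin (n j)) (Fin (n j)) ℂ, (∀ j, X j ∈ Gp (n j) (Q j)) ∧
      ∀ S : MvPolynomial (Fin ((∑ j, n j) * (∑ j, n j))) (Polynomial ℚ), vP N H S (blk n ℂ X) x =
        MvPolynomial.eval₂ (evq (x : ℂ)) (fun j => blk n ℂ Z (ix _ j).1 (ix _ j).2) S := by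
    intro x hx hx1 Z hZ
    obtain ⟨A, hA, hYA⟩ := hY x hx hx1
    obtain ⟨B, hB, hEB⟩ := hE (Complex.log x)
    refine ⟨fun j => (A j)⁻¹ * Z j * B j, fun j => Gp_mul (Gp_mul (Gp_inv (hA j)) (hZ j)) (hB j), fun S => ?_⟩
    unfold vP
    have e1 : Yf (cm N) (Hcg H) (x : ℂ) * blk n ℂ (fun j => (A j)⁻¹ * Z j * B j) * E (cm N) (-Complex.log x) =
        blk n ℂ Z := by
      have e2 : (fun j => (A j)⁻¹ * Z j * B j) = (fun j => (A j)⁻¹ * Z j) * B := rfl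
      have e3 : A * (fun j => (A j)⁻¹ * Z j) = Z := by
        funext j
        rw [Pi.mul_apply, ← Matrix.mul_assoc, Matrix.mul_nonsing_inv _ (hu A hA j), Matrix.one_mul]
      rw [e2, map_mul, hYA, ← hEB, ← Matrix.mul_assoc, ← map_mul, e3, Matrix.mul_assoc, E_mul_neg hN, Matrix.mul_one]
    rw [e1]
  -- the polynomials
  set κ : Polynomial ℚ →+* Polynomial ℂ := Polynomial.mapRingHom (algebraMap ℚ ℂ) with hκ
  have hpe : ∀ (Z : ∀ j, Matrix (Fin (n j)) (Fin (n j)) ℂ)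
      (S : MvPolynomial (Fin ((∑ j, n j) * (∑ j, n j))) (Polynomial ℚ)) (x : ℝ),
      (MvPolynomial.eval₂ κ (fun j => Polynomial.C (blk n ℂ Z (ix _ j).1 (ix _ j).2)) S).eval (x : ℂ) =
      MvPolynomial.eval₂ (evq (x : ℂ)) (fun j => blk n ℂ Z (ix _ j).1 (ix _ j).2) S := by
    intro Z S x
    have h2 : (Polynomial.evalRingHom (x : ℂ)).comp κ = evq (x : ℂ) := by
      refine Polynomial.ringHom_ext (fun a => ?_) ?_
      · simp [evq, hκ]
      · simp [evq, hκ]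
    rw [← Polynomial.coe_evalRingHom, MvPolynomial.hom_eval₂, h2]
    congr 1
    funext j
    simp
  have hZ0 : ∃ Z : ∀ j, Matrix (Fin (n j)) (Fin (n j)) ℂ, (∀ j, Z j ∈ Gp (n j) (Q j)) ∧
      MvPolynomial.eval₂ κ (fun j => Polynomial.C (blk n ℂ Z (ix _ j).1 (ix _ j).2)) P ≠ 0 := by
    by_contra hcon
    push Not at hcon
    apply h1ne
    intro x hx hx1
    obtain ⟨A, hA, hYA⟩ := hY x hx hx1
    obtain ⟨B, hB, hEB⟩ := hE (-Complex.log x)
    have h2 := hcon (fun j => A j * B j) fun j => Gp_mul (hA j) (hB j)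
    have h3 := hpe (fun j => A j * B j) P x
    rw [h2, Polynomial.eval_zero] at h3
    unfold vP
    have e1 : Yf (cm N) (Hcg H) (x : ℂ) * 1 * E (cm N) (-Complex.log x) = blk n ℂ (fun j => A j * B j) := by
      have e2 : (fun j => A j * B j) = A * B := rfl
      rw [e2, map_mul, ← hYA, ← hEB, mul_one]
    rw [e1]
    exact h3.symm
  obtain ⟨Z, hZ, hZP⟩ := hZ0
  refine ⟨_, MvPolynomial.eval₂ κ (fun j => Polynomial.C (blk n ℂ Z (ix _ j).1 (ix _ j).2)) R, hZP, fun x hx hx1 => ?_⟩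
  obtain ⟨X, hX, hXS⟩ := hval x hx hx1 Z hZ
  rw [hpe, hpe, ← hXS, ← hXS, hφ X hX x hx hx1, hφ0 X hX, add_zero, mul_comm]

end Pool.Agent.Run7.h696.CP
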